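import Mathlib

/-!
# Generic ideals in the square-free algebra: the expected Hilbert series fails

Over every infinite field `K`, for `n = 7` and two generic forms of degree `1`, the quotient of the
square-free algebra `K[x_1,…,x_7]/(x_1^2,…,x_7^2)` has a nonzero component of degree `3`, while the
truncated series `⟨(1+t)^7 (1-t)^2⟩ = 1 + 5 t + 8 t^2` predicts `0`.
-/

set_option autoImplicit false

open MvPolynomial

namespace Pool.Agent.Results.MP_3acc10_al.TwoLinearForms

universe u

section Defs

variable (K : Type u) [Field K] (n : ℕ)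

/-- The ideal `(x_1^2, …, x_n^2)` of `K[x_1,…,x_n]`. -/
noncomputable def sqIdeal : Ideal (MvPolynomial (Fin n) K) :=
  Ideal.span (Set.range fun i : Fin n => (X i : MvPolynomial (Fin n) K) ^ 2)

/-- The square-free algebra `K[x_1,…,x_n]/(x_1^2,…,x_n^2)`. -/
def SqFree : Type u := MvPolynomial (Fin n) K ⧸ sqIdeal K n

noncomputable instance : CommRing (SqFree K n) :=
  inferInstanceAs (CommRing (MvPolynomial (Fin n) K ⧸ sqIdeal K n))

noncomputable instance : Algebra K (SqFree K n) :=
  inferInstanceAs (Algebra K (MvPolynomial (Fin n) K ⧸ sqIdeal K n))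

/-- The quotient map `K[x_1,…,x_n] → K[x_1,…,x_n]/(x_1^2,…,x_n^2)`. -/
noncomputable def toSq : MvPolynomial (Fin n) K →ₐ[K] SqFree K n :=
  Ideal.Quotient.mkₐ K (sqIdeal K n)

variable {K n}

/-- The index set of the coefficients of forms of degrees `d_1, …, d_r` in the square-free algebra:
pairs of an `i` and a squarefree monomial of degree `d_i`. -/
abbrev CoeffIdx (n : ℕ) {r : ℕ} (d : Fin r → ℕ) : Type :=
  Σ i : Fin r, {S : Finset (Fin n) // S.card = d i}

/-- The `i`-th form `∑ c_{i,S} x_S` with the coefficient vector `c`. -/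
noncomputable def form {r : ℕ} (d : Fin r → ℕ) (c : CoeffIdx n d → K) (i : Fin r) : SqFree K n :=
  ∑ S : {S : Finset (Fin n) // S.card = d i}, c ⟨i, S⟩ • toSq K n (∏ j ∈ S.1, X j)

/-- The ideal generated by the forms with the coefficient vector `c`. -/
noncomputable def formIdeal {r : ℕ} (d : Fin r → ℕ) (c : CoeffIdx n d → K) : Ideal (SqFree K n) :=
  Ideal.span (Set.range (form d c))

/-- The quotient map `K[x_1,…,x_n] → SqFree K n ⧸ I`. -/
noncomputable def toQuot (I : Ideal (SqFree K n)) : MvPolynomial (Fin n) K →ₐ[K] SqFree K n ⧸ I :=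
  (Ideal.Quotient.mkₐ K I).comp (toSq K n)

/-- The component of degree `e` of the quotient of the square-free algebra by the ideal `I`: the
image of the space of homogeneous polynomials of degree `e`. -/
noncomputable def comp (I : Ideal (SqFree K n)) (e : ℕ) : Submodule K (SqFree K n ⧸ I) :=
  (homogeneousSubmodule (Fin n) K e).map (toQuot I).toLinearMap

/-- The Hilbert function of the quotient of the square-free algebra by the ideal `I`. -/
noncomputable def hilb (I : Ideal (SqFree K n)) (e : ℕ) : ℕ := Module.finrank K (comp I e)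

/-- Zariski-open subsets of an affine space. -/
def IsZariskiOpen {σ : Type} (U : Set (σ → K)) : Prop :=
  ∃ T : Set (MvPolynomial σ K), U = {c | ∃ P ∈ T, eval c P ≠ 0}

/-- `Q` holds generically: on some nonempty Zariski-open set. -/
def Generically {σ : Type} (Q : (σ → K) → Prop) : Prop :=
  ∃ U : Set (σ → K), IsZariskiOpen U ∧ U.Nonempty ∧ ∀ c ∈ U, Q c

/-- The `e`-th coefficient of the truncation `⟨s⟩` of a power series `s`: the coefficients from the
first one that is `≤ 0` on are replaced by `0`. -/
noncomputable def truncCoeff (s : PowerSeries ℤ) (e : ℕ) : ℤ :=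
  open Classical in if ∀ j ≤ e, 0 < PowerSeries.coeff j s then PowerSeries.coeff e s else 0

/-- The series `(1+t)^n ∏ (1-t^{d_i})`. -/
noncomputable def expected (n : ℕ) {r : ℕ} (d : Fin r → ℕ) : PowerSeries ℤ :=
  (1 + PowerSeries.X) ^ n * ∏ i, (1 - PowerSeries.X ^ d i)

/-- The Hilbert series of the quotient of the square-free algebra by the ideal generated by the
forms with the coefficient vector `c` is the expected one, `⟨(1+t)^n ∏ (1-t^{d_i})⟩`. -/
def HasExpectedSeries {r : ℕ} (d : Fin r → ℕ) (c : CoeffIdx n d → K) : Prop :=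
  ∀ e : ℕ, (hilb (formIdeal d c) e : ℤ) = truncCoeff (expected n d) e

end Defs

section Functional

variable {K : Type u} [Field K]

/-- The factors `t_i - t_j`, with `1` on the diagonal. -/
def br (t : Fin 7 → K) (i j : Fin 7) : K := if i = j then 1 else t i - t j

/-- The product of all `t_i - t_j` over ordered pairs of distinct elements of `T`. -/
def disc (t : Fin 7 → K) (T : Finset (Fin 7)) : K := ∏ i ∈ T, ∏ j ∈ T, br t i j

/-- The weights. -/
noncomputable def wt (a t : Fin 7 → K) (i : Fin 7) : K :=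
  (a i * ∏ j ∈ Finset.univ.erase i, (t i - t j))⁻¹

/-- The coefficients of the cubic. -/
noncomputable def cub (a t : Fin 7 → K) (T : Finset (Fin 7)) : K :=
  (∏ i ∈ T, wt a t i) * disc t T

/-- The values of the functional on monomials. -/
noncomputable def gval (a t : Fin 7 → K) (m : Fin 7 →₀ ℕ) : K :=
  if (∀ j, m j ≤ 1) ∧ m.support.card = 3 then cub a t m.support else 0

lemma disc_insert (t : Fin 7 → K) (T : Finset (Fin 7)) (i : Fin 7) (hi : i ∉ T) :
    disc t (insert i T) = (∏ j ∈ T, ((t i - t j) * (t j - t i))) * disc t T := by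
  unfold disc
  rw [Finset.prod_insert hi, Finset.prod_insert hi]
  have h1 : ∏ j ∈ T, ∏ k ∈ insert i T, br t j k = (∏ j ∈ T, br t j i) * ∏ j ∈ T, ∏ k ∈ T, br t j k := by
    rw [← Finset.prod_mul_distrib]
    exact Finset.prod_congr rfl fun j _ => Finset.prod_insert hi
  rw [h1, Finset.prod_mul_distrib]
  have h2 : ∏ j ∈ T, br t i j = ∏ j ∈ T, (t i - t j) :=
    Finset.prod_congr rfl fun j hj => by
      rw [br, if_neg]
      rintro rfl; exact hi hj
  have h3 : ∏ j ∈ T, br t j i = ∏ j ∈ T, (t j - t i) :=
    Finset.prod_congr rfl fun j hj => by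
      rw [br, if_neg]
      rintro rfl; exact hi hj
  rw [h2, h3]
  simp only [br, if_true]
  ring

lemma interp (t : Fin 7 → K) (ht : Function.Injective t) (P : Polynomial K) (hP : P.natDegree ≤ 5) :
    ∑ i : Fin 7, (P.eval (t i)) / ∏ j ∈ Finset.univ.erase i, (t i - t j) = 0 := by
  have h := Lagrange.coeff_eq_sum (s := (Finset.univ : Finset (Fin 7))) (v := t)
    (ht.injOn) (P := P) (by
      refine lt_of_le_of_lt (Polynomial.degree_le_natDegree) ?_
      simp only [Finset.card_univ, Fintype.card_fin]
      exact_mod_cast (by omega : P.natDegree < 7))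
  rw [← h]
  apply Polynomial.coeff_eq_zero_of_natDegree_lt
  simp only [Finset.card_univ, Fintype.card_fin]
  omega

/-- The polynomial `∏_{j ∈ S} (X - t_j) (t_j - X)`. -/
noncomputable def PS (t : Fin 7 → K) (S : Finset (Fin 7)) : Polynomial K :=
  ∏ j ∈ S, ((Polynomial.X - Polynomial.C (t j)) * (Polynomial.C (t j) - Polynomial.X))

lemma PS_natDegree (t : Fin 7 → K) (S : Finset (Fin 7)) : (PS t S).natDegree ≤ 2 * S.card := by
  unfold PS
  refine (Polynomial.natDegree_prod_le _ _).trans ?_
  rw [mul_comm, ← smul_eq_mul]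
  apply Finset.sum_le_card_nsmul
  intro j _
  refine (Polynomial.natDegree_mul_le).trans ?_
  have h1 : (Polynomial.X - Polynomial.C (t j)).natDegree ≤ 1 := Polynomial.natDegree_X_sub_C_le _
  have h2 : (Polynomial.C (t j) - Polynomial.X).natDegree ≤ 1 := by
    refine (Polynomial.natDegree_sub_le _ _).trans ?_
    simp
  omega

lemma PS_eval (t : Fin 7 → K) (S : Finset (Fin 7)) (x : K) :
    (PS t S).eval x = ∏ j ∈ S, ((x - t j) * (t j - x)) := by
  simp [PS, Polynomial.eval_prod]

lemma cub_sum (a t α : Fin 7 → K) (ha : ∀ i, a i ≠ 0) (ht : Function.Injective t)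
    (hα : (∀ i, α i = a i) ∨ (∀ i, α i = a i * t i)) (S : Finset (Fin 7)) (hS : S.card = 2) :
    ∑ i : Fin 7, (if i ∈ S then 0 else α i * cub a t (insert i S)) = 0 := by
  have key : ∀ i : Fin 7, (if i ∈ S then 0 else α i * cub a t (insert i S)) =
      cub a t S * (α i * wt a t i * (PS t S).eval (t i)) := by
    intro i
    by_cases hi : i ∈ S
    · rw [if_pos hi, PS_eval, Finset.prod_eq_zero hi (by ring)]
      ring
    · rw [if_neg hi, PS_eval, cub, cub, Finset.prod_insert hi, disc_insert t S i hi]
      ring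
  rw [Finset.sum_congr rfl fun i _ => key i, ← Finset.mul_sum]
  have hdeg := PS_natDegree t S
  rw [hS] at hdeg
  rcases hα with hα | hα
  · have h1 : ∀ i, α i * wt a t i * (PS t S).eval (t i) =
        (PS t S).eval (t i) / ∏ j ∈ Finset.univ.erase i, (t i - t j) := by
      intro i
      rw [hα, wt, mul_inv, ← mul_assoc, mul_inv_cancel₀ (ha i), one_mul, div_eq_mul_inv, mul_comm]
    rw [Finset.sum_congr rfl fun i _ => h1 i, interp t ht _ (by omega), mul_zero]
  · have h1 : ∀ i, α i * wt a t i * (PS t S).eval (t i) =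
        (PS t S * Polynomial.X).eval (t i) / ∏ j ∈ Finset.univ.erase i, (t i - t j) := by
      intro i
      rw [hα, wt, mul_inv, Polynomial.eval_mul, Polynomial.eval_X, div_eq_mul_inv]
      have := mul_inv_cancel₀ (ha i)
      linear_combination (t i * (∏ j ∈ Finset.univ.erase i, (t i - t j))⁻¹ *
        (PS t S).eval (t i)) * this
    rw [Finset.sum_congr rfl fun i _ => h1 i, interp t ht, mul_zero]
    refine (Polynomial.natDegree_mul_le).trans ?_
    rw [Polynomial.natDegree_X]
    omega

/-- The functional on polynomials. -/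
noncomputable def phi (a t : Fin 7 → K) : MvPolynomial (Fin 7) K →ₗ[K] K :=
  (basisMonomials (Fin 7) K).constr K (gval a t)

lemma phi_monomial (a t : Fin 7 → K) (m : Fin 7 →₀ ℕ) : phi a t (monomial m 1) = gval a t m := by
  have := (basisMonomials (Fin 7) K).constr_basis K (gval a t) m
  rwa [coe_basisMonomials] at this

lemma sum_gval (a t α : Fin 7 → K) (ha : ∀ i, a i ≠ 0) (ht : Function.Injective t)
    (hα : (∀ i, α i = a i) ∨ (∀ i, α i = a i * t i)) (m : Fin 7 →₀ ℕ) :
    ∑ i : Fin 7, α i * gval a t (m + Finsupp.single i 1) = 0 := by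
  by_cases h1 : ∀ j, m j ≤ 1
  swap
  · push Not at h1
    obtain ⟨j, hj⟩ := h1
    apply Finset.sum_eq_zero
    intro i _
    rw [gval, if_neg, mul_zero]
    rintro ⟨h, -⟩
    have := h j
    rw [Finsupp.add_apply] at this
    omega
  have hg : ∀ i, gval a t (m + Finsupp.single i 1) =
      if i ∈ m.support then 0 else
        if m.support.card = 2 then cub a t (insert i m.support) else 0 := by
    intro i
    by_cases hi : i ∈ m.support
    · rw [if_pos hi, gval, if_neg]
      rintro ⟨h, -⟩
      have := h i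
      rw [Finsupp.add_apply, Finsupp.single_eq_same] at this
      have h2 : m i ≠ 0 := Finsupp.mem_support_iff.mp hi
      omega
    · have hi0 : m i = 0 := by simpa using hi
      have hsup : (m + Finsupp.single i 1).support = insert i m.support := by
        ext j
        simp only [Finsupp.mem_support_iff, Finsupp.add_apply, Finset.mem_insert]
        by_cases hij : j = i
        · subst hij; simp
        · rw [Finsupp.single_eq_of_ne hij]; simp [hij]
      have hle : ∀ j, (m + Finsupp.single i 1 : Fin 7 →₀ ℕ) j ≤ 1 := by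
        intro j
        rw [Finsupp.add_apply]
        by_cases hij : j = i
        · subst hij; rw [Finsupp.single_eq_same]; omega
        · rw [Finsupp.single_eq_of_ne hij]; have := h1 j; omega
      rw [if_neg hi, gval, hsup, Finset.card_insert_of_notMem hi]
      by_cases h2 : m.support.card = 2
      · rw [if_pos h2, if_pos ⟨hle, by omega⟩]
      · rw [if_neg h2, if_neg]
        rintro ⟨-, h⟩; omega
  by_cases h2 : m.support.card = 2
  · rw [← cub_sum a t α ha ht hα m.support h2]
    apply Finset.sum_congr rfl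
    intro i _
    rw [hg]
    split_ifs <;> simp
  · apply Finset.sum_eq_zero
    intro i _
    rw [hg, if_neg h2]
    split_ifs <;> simp

/-- The linear form with coefficients `α`. -/
noncomputable def lin (α : Fin 7 → K) : MvPolynomial (Fin 7) K := ∑ i, C (α i) * X i

/-- The ideal of all polynomials all of whose multiples are killed by `phi`. -/
noncomputable def killed (a t : Fin 7 → K) : Ideal (MvPolynomial (Fin 7) K) where
  carrier := {p | ∀ q, phi a t (q * p) = 0}
  add_mem' := by
    intro p p' hp hp' q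
    rw [mul_add, map_add, hp, hp', add_zero]
  zero_mem' := by
    intro q
    rw [mul_zero, map_zero]
  smul_mem' := by
    intro c p hp q
    rw [smul_eq_mul, ← mul_assoc]
    exact hp _

lemma mem_killed_of_monomial (a t : Fin 7 → K) (p : MvPolynomial (Fin 7) K)
    (h : ∀ m, phi a t (monomial m 1 * p) = 0) : p ∈ killed a t := by
  intro q
  induction q using MvPolynomial.induction_on' with
  | monomial m r =>
    have : (monomial m r : MvPolynomial (Fin 7) K) = r • monomial m 1 := by
      rw [smul_monomial, smul_eq_mul, mul_one]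
    rw [this, smul_mul_assoc, map_smul, h, smul_zero]
  | add q q' hq hq' => rw [add_mul, map_add, hq, hq', add_zero]

lemma sq_mem (a t : Fin 7 → K) (i : Fin 7) : (X i : MvPolynomial (Fin 7) K) ^ 2 ∈ killed a t := by
  apply mem_killed_of_monomial
  intro m
  rw [X_pow_eq_monomial, monomial_mul, mul_one, phi_monomial, gval, if_neg]
  rintro ⟨h, -⟩
  have := h i
  rw [Finsupp.add_apply, Finsupp.single_eq_same] at this
  omega

lemma lin_mem (a t α : Fin 7 → K) (ha : ∀ i, a i ≠ 0) (ht : Function.Injective t)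
    (hα : (∀ i, α i = a i) ∨ (∀ i, α i = a i * t i)) : lin α ∈ killed a t := by
  apply mem_killed_of_monomial
  intro m
  rw [lin, Finset.mul_sum, map_sum, ← sum_gval a t α ha ht hα m]
  apply Finset.sum_congr rfl
  intro i _
  have : (monomial m 1 * (C (α i) * X i) : MvPolynomial (Fin 7) K) =
      α i • monomial (m + Finsupp.single i 1) 1 := by
    rw [X, C_mul_monomial, monomial_mul, smul_monomial, smul_eq_mul]
    ring_nf
  rw [this, map_smul, phi_monomial, smul_eq_mul]

lemma phi_ne (a t : Fin 7 → K) (ha : ∀ i, a i ≠ 0) (ht : Function.Injective t) :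
    phi a t (X 0 * X 1 * X 2) ≠ 0 := by
  have h1 : (X 0 * X 1 * X 2 : MvPolynomial (Fin 7) K) =
      monomial (Finsupp.single 0 1 + Finsupp.single 1 1 + Finsupp.single 2 1) 1 := by
    rw [X, X, X, monomial_mul, monomial_mul, mul_one, mul_one]
  rw [h1, phi_monomial]
  set m : Fin 7 →₀ ℕ := Finsupp.single 0 1 + Finsupp.single 1 1 + Finsupp.single 2 1 with hm
  have hsup : m.support = {0, 1, 2} := by
    ext j
    fin_cases j <;> simp [hm]
  have hle : ∀ j, m j ≤ 1 := by
    intro j
    fin_cases j <;> simp [hm]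
  rw [gval, if_pos ⟨hle, by rw [hsup]; rfl⟩, cub]
  apply mul_ne_zero
  · rw [Finset.prod_ne_zero_iff]
    intro i _
    apply inv_ne_zero
    apply mul_ne_zero (ha i)
    rw [Finset.prod_ne_zero_iff]
    intro j hj h
    exact (Finset.ne_of_mem_erase hj) (ht (sub_eq_zero.mp h)).symm
  · unfold disc
    rw [Finset.prod_ne_zero_iff]
    intro i _
    rw [Finset.prod_ne_zero_iff]
    intro j _
    unfold br
    split_ifs with hij
    · exact one_ne_zero
    · intro h
      exact hij (ht (sub_eq_zero.mp h))

end Functional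

section Main

variable {K : Type u} [Field K]

/-- The degrees `(1, 1)`. -/
def dd : Fin 2 → ℕ := fun _ => 1

/-- The coefficient of `x_j` in the `i`-th form. -/
def cf (c : CoeffIdx 7 dd → K) (i : Fin 2) (j : Fin 7) : K :=
  c ⟨i, ⟨{j}, by simp [dd]⟩⟩

lemma form_eq (c : CoeffIdx 7 dd → K) (i : Fin 2) :
    form dd c i = toSq K 7 (lin (cf c i)) := by
  unfold form lin
  rw [map_sum]
  symm
  refine Finset.sum_bij (fun (j : Fin 7) _ => (⟨{j}, by simp [dd]⟩ : {S : Finset (Fin 7) // S.card = dd i}))
    (fun _ _ => Finset.mem_univ _) ?_ ?_ ?_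
  · intro j _ k _ h
    simpa using congrArg Subtype.val h
  · rintro ⟨S, hS⟩ _
    obtain ⟨j, hj⟩ := Finset.card_eq_one.mp hS
    exact ⟨j, Finset.mem_univ _, Subtype.ext hj.symm⟩
  · intro j _
    simp only [Finset.prod_singleton, cf]
    rw [← map_smul, smul_eq_C_mul]

/-- The good coefficient vectors. -/
def Good (c : CoeffIdx 7 dd → K) : Prop :=
  (∀ i, cf c 0 i ≠ 0) ∧ ∀ i j, i ≠ j → cf c 0 i * cf c 1 j - cf c 0 j * cf c 1 i ≠ 0

lemma deg3_ne_zero (c : CoeffIdx 7 dd → K) (hc : Good c) : hilb (formIdeal dd c) 3 ≠ 0 := by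
  classical
  set a : Fin 7 → K := cf c 0 with ha'
  set t : Fin 7 → K := fun i => cf c 1 i / cf c 0 i with ht'
  have ha : ∀ i, a i ≠ 0 := hc.1
  have ht : Function.Injective t := by
    intro i j hij
    by_contra hne
    apply hc.2 i j hne
    simp only [ht'] at hij
    rw [div_eq_div_iff (ha i) (ha j)] at hij
    linear_combination -hij
  have hsurj : Function.Surjective (toSq K 7) := Ideal.Quotient.mk_surjective
  have hkr : RingHom.ker (toSq K 7 : MvPolynomial (Fin 7) K →+* SqFree K 7) = sqIdeal K 7 :=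
    Ideal.mk_ker
  have hker : ∀ p : MvPolynomial (Fin 7) K,
      toSq K 7 p ∈ formIdeal dd c → phi a t p = 0 := by
    intro p hp
    have hle : formIdeal dd c ≤ (killed a t).map (toSq K 7 : MvPolynomial (Fin 7) K →+* SqFree K 7) := by
      unfold formIdeal
      rw [Ideal.span_le]
      rintro _ ⟨i, rfl⟩
      rw [form_eq]
      apply Ideal.mem_map_of_mem (toSq K 7 : MvPolynomial (Fin 7) K →+* SqFree K 7)
      apply lin_mem a t _ ha ht
      fin_cases i
      · left; intro i; rfl
      · right
        intro i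
        have := ha i
        simp only [ht', ha']
        exact (mul_div_cancel₀ (cf c 1 i) this).symm
    have hsq : sqIdeal K 7 ≤ killed a t := by
      unfold sqIdeal
      rw [Ideal.span_le]
      rintro _ ⟨i, rfl⟩
      exact sq_mem a t i
    have h1 : p ∈ ((killed a t).map (toSq K 7 : MvPolynomial (Fin 7) K →+* SqFree K 7)).comap
        (toSq K 7 : MvPolynomial (Fin 7) K →+* SqFree K 7) := hle hp
    rw [Ideal.comap_map_of_surjective' (toSq K 7 : MvPolynomial (Fin 7) K →+* SqFree K 7) hsurj,
      hkr, sup_eq_left.mpr hsq] at h1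
    have := h1 1
    rwa [one_mul] at this
  have hfin : Module.Finite K (comp (formIdeal dd c) 3) := by
    rw [Module.Finite.iff_fg]
    exact (homogeneousSubmodule_fg (Fin 7) K 3).map _
  unfold hilb
  intro h0
  have hbot := Submodule.finrank_eq_zero.mp h0
  have hmem : (toQuot (formIdeal dd c)).toLinearMap (X 0 * X 1 * X 2) ∈
      comp (formIdeal dd c) 3 := by
    apply Submodule.mem_map_of_mem
    rw [mem_homogeneousSubmodule]
    exact ((isHomogeneous_X K 0).mul (isHomogeneous_X K 1)).mul (isHomogeneous_X K 2)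
  rw [hbot, Submodule.mem_bot] at hmem
  have h2 : toSq K 7 (X 0 * X 1 * X 2 : MvPolynomial (Fin 7) K) ∈ formIdeal dd c := by
    rw [← Ideal.Quotient.eq_zero_iff_mem]
    exact hmem
  exact phi_ne a t ha ht (hker _ h2)

/-- The polynomial whose nonvanishing locus consists of good vectors. -/
noncomputable def PP : MvPolynomial (CoeffIdx 7 dd) K :=
  (∏ i : Fin 7, X ⟨0, ⟨{i}, by simp [dd]⟩⟩) *
    ∏ i : Fin 7, ∏ j : Fin 7, if i = j then 1 else
      (X ⟨0, ⟨{i}, by simp [dd]⟩⟩ * X ⟨1, ⟨{j}, by simp [dd]⟩⟩ -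
        X ⟨0, ⟨{j}, by simp [dd]⟩⟩ * X ⟨1, ⟨{i}, by simp [dd]⟩⟩)

lemma eval_PP (c : CoeffIdx 7 dd → K) : eval c (PP (K := K)) =
    (∏ i : Fin 7, cf c 0 i) * ∏ i : Fin 7, ∏ j : Fin 7, if i = j then 1 else
      (cf c 0 i * cf c 1 j - cf c 0 j * cf c 1 i) := by
  unfold PP
  rw [map_mul, map_prod, map_prod]
  congr 1
  · simp [cf]
  · apply Finset.prod_congr rfl
    intro i _
    rw [map_prod]
    apply Finset.prod_congr rfl
    intro j _
    split_ifs
    · simp
    · simp [cf]

lemma good_of_eval (c : CoeffIdx 7 dd → K) (h : eval c (PP (K := K)) ≠ 0) : Good c := by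
  rw [eval_PP] at h
  obtain ⟨h1, h2⟩ := mul_ne_zero_iff.mp h
  rw [Finset.prod_ne_zero_iff] at h1 h2
  refine ⟨fun i => h1 i (Finset.mem_univ _), fun i j hij => ?_⟩
  have := Finset.prod_ne_zero_iff.mp (h2 i (Finset.mem_univ _)) j (Finset.mem_univ _)
  rwa [if_neg hij] at this

lemma exists_eval_ne [Infinite K] : ∃ c : CoeffIdx 7 dd → K, eval c (PP (K := K)) ≠ 0 := by
  classical
  let e : Fin 7 → K := fun i => Infinite.natEmbedding K i
  have he : Function.Injective e := fun i j h => by
    have := (Infinite.natEmbedding K).injective h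
    exact Fin.ext this
  refine ⟨fun x => if x.1 = 0 then 1 else ∑ j ∈ x.2.1, e j, ?_⟩
  rw [eval_PP]
  apply mul_ne_zero
  · rw [Finset.prod_ne_zero_iff]
    intro i _
    simp [cf]
  · rw [Finset.prod_ne_zero_iff]
    intro i _
    rw [Finset.prod_ne_zero_iff]
    intro j _
    split_ifs with hij
    · exact one_ne_zero
    · simp only [cf, if_true, Finset.sum_singleton, one_mul]
      rw [if_neg (by decide), if_neg (by decide)]
      intro h
      exact hij (he (sub_eq_zero.mp h)).symm

lemma expected_three : truncCoeff (expected 7 dd) 3 = 0 := by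
  unfold truncCoeff
  rw [if_neg]
  intro h
  have h3 := h 3 le_rfl
  have he : expected 7 dd = ((1 + 5 * Polynomial.X + 8 * Polynomial.X ^ 2 -
      14 * Polynomial.X ^ 4 - 14 * Polynomial.X ^ 5 + 8 * Polynomial.X ^ 7 +
      5 * Polynomial.X ^ 8 + Polynomial.X ^ 9 : Polynomial ℤ) : PowerSeries ℤ) := by
    have : expected 7 dd = (((1 + Polynomial.X) ^ 7 * (1 - Polynomial.X) ^ 2 : Polynomial ℤ) :
        PowerSeries ℤ) := by
      unfold expected dd
      rw [Fin.prod_univ_two]
      push_cast
      ring
    rw [this]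
    congr 1
    ring
  rw [he, Polynomial.coeff_coe] at h3
  have h4 : (1 + 5 * Polynomial.X + 8 * Polynomial.X ^ 2 -
      14 * Polynomial.X ^ 4 - 14 * Polynomial.X ^ 5 + 8 * Polynomial.X ^ 7 +
      5 * Polynomial.X ^ 8 + Polynomial.X ^ 9 : Polynomial ℤ).coeff 3 = 0 := by
    simp only [Polynomial.coeff_add, Polynomial.coeff_sub, Polynomial.coeff_ofNat_mul,
      Polynomial.coeff_X_pow, Polynomial.coeff_X, Polynomial.coeff_one]
    norm_num
  rw [h4] at h3
  exact lt_irrefl _ h3

/-- Over every infinite field `K`, the answer to Q1 is negative for `n = 7`, `r = 2` and the degrees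
`(1, 1)`: the Hilbert series of the quotient of the square-free algebra by two generic linear forms
differs from `⟨(1+t)^7 (1-t)^2⟩ = 1 + 5 t + 8 t^2` (the component of degree `3` is nonzero), for
all coefficient vectors in a nonempty Zariski-open set; and there is no nonempty Zariski-open set of
coefficient vectors on which the Hilbert series is the expected one. -/
theorem result (K : Type u) [Field K] [Infinite K] :
    Generically (fun c : CoeffIdx 7 dd → K => ¬ HasExpectedSeries dd c) ∧
      ¬ Generically (fun c : CoeffIdx 7 dd → K => HasExpectedSeries dd c) := by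
  refine ⟨?_, ?_⟩
  · refine ⟨{c | ∃ P ∈ ({PP} : Set (MvPolynomial (CoeffIdx 7 dd) K)), eval c P ≠ 0}, ⟨_, rfl⟩, ?_, ?_⟩
    · obtain ⟨c, hc⟩ := exists_eval_ne (K := K)
      exact ⟨c, PP, rfl, hc⟩
    · rintro c ⟨P, rfl, hP⟩ h
      have h3 := h 3
      rw [expected_three] at h3
      exact deg3_ne_zero c (good_of_eval c hP) (by exact_mod_cast h3)
  · rintro ⟨U, ⟨T, rfl⟩, ⟨c₀, P, hPT, hP⟩, hU⟩
    have hP0 : P ≠ 0 := by
      rintro rfl
      exact hP (map_zero _)
    have hQ0 : (PP : MvPolynomial (CoeffIdx 7 dd) K) ≠ 0 := by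
      obtain ⟨c, hc⟩ := exists_eval_ne (K := K)
      rintro h
      rw [h] at hc
      exact hc (map_zero _)
    have hPQ : P * PP ≠ 0 := mul_ne_zero hP0 hQ0
    have hex : ∃ c : CoeffIdx 7 dd → K, eval c (P * PP) ≠ 0 := by
      by_contra hcon
      push Not at hcon
      apply hPQ
      apply MvPolynomial.funext
      intro c
      rw [hcon c, map_zero]
    obtain ⟨c, hc⟩ := hex
    rw [map_mul] at hc
    obtain ⟨h1, h2⟩ := mul_ne_zero_iff.mp hc
    have h3 := hU c ⟨P, hPT, h1⟩ 3
    rw [expected_three] at h3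
    exact deg3_ne_zero c (good_of_eval c h2) (by exact_mod_cast h3)

end Main

end Pool.Agent.Results.MP_3acc10_al.TwoLinearForms
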